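import Pool.Agent.H2CV.All

/-!
The curvature of the vortex lines concentrates at the singular points of Navier-Stokes flows.

`V` is `ℝ³` with the maximum norm (the balls are cubes), `len` is the Euclidean length, `vort v` is
the curl of `v` and `om v` its length. A point `a` is singular at the time `T` (`Sing T u a`) if `u`
is unbounded in every neighbourhood of `(T, a)`.

Let `ω = curl u(t)`, `ξ = ω / |ω|` and let `κ = |(ξ · ∇) ξ|` be the curvature of the vortex lines.
Then `κ |ω| = |ω × (ω · ∇) ω| / |ω|²`. The integral of `κ |ω|` over `ℝ³` and the integral of `κ`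
with respect to the one-dimensional Hausdorff content are invariant under the scaling of the
equations. The theorem: if `a` is singular then there is a `μ > 0` such that near `(T, a)`, where
`|ω| > M`, the function `κ |ω|` is nowhere (in no cube `Q` around `a` during no interval `(T₀, T)`,
for no constant `M`) of the form `κ |ω| ≤ m |ω| + f` with `m(t)` of content integral at most `μ` in
`Q` and `f(t)` of integral at most `μ` over `Q`.

So `a` is not singular if one of the following conditions holds at the times near `T`, at the points
where `|ω| > M`, with a constant `M`: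

* the curvature of the vortex lines is bounded near `a`;
* `κ(t, y) ≤ h(|y - a|) / |y - a|` near `a` with a function `h` with `∫₀ h(r) / r dr < ∞` (for
  example `h(r) = (log (1 / r))⁻²`) and `h(r) / r` nonincreasing;
* `κ(t, y) |ω(t, y)|`, or its part where `κ` is larger than a constant, is uniformly integrable.

There is no condition on the variation of `ξ` across the vortex lines, and none on the size of the
vorticity or on the rate of its growth.
-/

open MeasureTheory Set Metric
open scoped ENNReal NNReal
open H459R3.NS Pool.Agent.W268.NS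
open Pool.Agent.Q67.VD (om len)
open Pool.Agent.Q85.CL (Sing Blow DSl WSl)

set_option autoImplicit false

namespace Pool.Agent.Results.MP_6bf1e5_an.CurvatureOfVortexLines

/-- The length of the vorticity `ω = curl v` times the curvature of the vortex line through `y`:
`|ω × (ω · ∇) ω| / |ω|²` (with the value `0` where `ω = 0`). -/
noncomputable def omCurv (v : V → V) (y : V) : ℝ :=
  len (crossProduct (vort v y) (fderiv ℝ (vort v) y (vort v y))) / om v y ^ 2

/-- The one-dimensional Hausdorff content: the infimum of the sums of the radii of the countable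
coverings by closed cubes. -/
noncomputable def content (S : Set V) : ℝ≥0∞ :=
  ⨅ (x : ℕ → V) (r : ℕ → ℝ≥0) (_ : S ⊆ ⋃ i, closedBall (x i) (r i)), ∑' i, (r i : ℝ≥0∞)

/-- The integral of `m` over `Q` with respect to the one-dimensional content: the integral over
`l > 0` of the content of the set of the points of `Q` at which `m > l`. -/
noncomputable def contentIntegral (Q : Set V) (m : V → ℝ) : ℝ≥0∞ :=
  ∫⁻ l in Ioi (0 : ℝ), content {y ∈ Q | l < m y}

/-- There is a `μ > 0` such that for all `M`, all `0 ≤ T₀ < T`, all cubes `‖y - a‖ ≤ R` in `Ω` and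
all measurable functions `m(t) ≥ 0`, `T₀ < t < T`, with content integral at most `μ` over the cube,
the integral of `(κ |ω| - m(t) |ω|)⁺` over the part of the cube where `|ω| > M` is larger than `μ`
at a time `t` in `(T₀, T)`; here `ω = curl u(t)` and `κ` is the curvature of its lines. -/
def CurvatureConcentrates (T : ℝ) (Ω : Set V) (u : ℝ → V → V) (a : V) : Prop :=
  ∃ μ : ℝ, 0 < μ ∧ ∀ (M T₀ R : ℝ) (m : ℝ → V → ℝ), 0 ≤ T₀ → T₀ < T → 0 < R →
    closedBall a R ⊆ Ω →
    (∀ t ∈ Ioo T₀ T, Measurable (m t) ∧ (∀ y, 0 ≤ m t y) ∧
      contentIntegral (closedBall a R) (m t) ≤ ENNReal.ofReal μ) →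
    ∃ t ∈ Ioo T₀ T, μ < ∫ y in closedBall a R ∩ {y | M < om (u t) y},
      max (omCurv (u t) y - m t y * om (u t) y) 0

/-- The curvature of the vortex lines at the singular points, for smooth solutions of the
Navier-Stokes equations without force, with viscosity `ν > 0`,

(a) in `(0, T) × Ω`, `Ω` open, with finite energy, finite dissipation and integrable pressure;

(b) in `(0, T) × ℝ³` with bounded energy, finite dissipation and pressure integrable over `(0, T) × B`
for balls `B`;

(c) periodic, on `[0, T) × ℝ³`.

In the cases (b) and (c) there is a singular point if `u` is unbounded near the time `T`. -/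
theorem result (ν T : ℝ) (u : ℝ → V → V) (p : ℝ → V → ℝ) (hν : 0 < ν) :
    (∀ (E : ℝ) (Ω : Set V), DSl ν T E Ω u p →
      ∀ a ∈ Ω, Sing T u a → CurvatureConcentrates T Ω u a) ∧
    (∀ E : ℝ, WSl ν T E u p → (Blow T u → ∃ a, Sing T u a) ∧
      ∀ a, Sing T u a → CurvatureConcentrates T univ u a) ∧
    (IsSol ν T u p → (Blow T u → ∃ a, Sing T u a) ∧
      ∀ a, Sing T u a → CurvatureConcentrates T univ u a) :=
  ⟨fun _ _ h _ ha hs => H2CV.conc2_D hν h ha hs, fun _ h => H2CV.conc2_W hν h,
    fun h => H2CV.conc2_P hν h⟩

/-- The content of a cube. -/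
lemma content_closedBall (a : V) {R : ℝ} (hR : 0 ≤ R) :
    content (closedBall a R) ≤ ENNReal.ofReal R := by
  unfold content
  refine (iInf_le _ (fun _ : ℕ => a)).trans ((iInf_le _
    (fun i : ℕ => if i = 0 then R.toNNReal else 0)).trans ((iInf_le _ ?_).trans ?_))
  · intro y hy
    refine mem_iUnion.2 ⟨0, ?_⟩
    simpa [Real.coe_toNNReal R hR] using hy
  · rw [tsum_eq_single 0 (fun i hi => by simp [hi])]
    simp [ENNReal.ofReal]

/-- The special case of constants `m = A`: a fixed amount of `κ |ω|` concentrates in the region
where the curvature is larger than `A` and `|ω| > M`, for all `A` and `M`. In particular the curvature is not bounded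
near a singular point. -/
theorem constants {T : ℝ} {u : ℝ → V → V} {a : V} (h : CurvatureConcentrates T univ u a)
    (hint : ∀ t ∈ Ioo 0 T, ∀ (A R : ℝ), 0 ≤ A →
      IntegrableOn (fun y => max (omCurv (u t) y - A * om (u t) y) 0) (closedBall a R)) :
    ∃ μ : ℝ, 0 < μ ∧ ∀ A M T₀ R : ℝ, 0 ≤ A → 0 ≤ T₀ → T₀ < T → 0 < R →
      ∃ t ∈ Ioo T₀ T, μ < ∫ y in closedBall a R ∩ {y | M < om (u t) y},
        max (omCurv (u t) y - A * om (u t) y) 0 := by
  obtain ⟨μ, hμ, h⟩ := h
  refine ⟨μ, hμ, fun A M T₀ R hA hT0 hT₀ hR => ?_⟩
  have hR' : 0 < min R (μ / (A + 1)) := lt_min hR (by positivity)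
  obtain ⟨t, ht, hlt⟩ := h M T₀ (min R (μ / (A + 1))) (fun _ _ => A) hT0 hT₀ hR' (subset_univ _)
    (fun t _ => ⟨measurable_const, fun _ => hA, by
      have h1 : ∀ l ∈ Ioi (0 : ℝ), content {y ∈ closedBall a (min R (μ / (A + 1))) | l < A}
          ≤ (Iio A).indicator (fun _ => ENNReal.ofReal (μ / (A + 1))) l := by
        intro l _
        by_cases hl : l < A
        · rw [indicator_of_mem (show l ∈ Iio A from hl)]
          have e : {y ∈ closedBall a (min R (μ / (A + 1))) | l < A}
              = closedBall a (min R (μ / (A + 1))) := by
            ext y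
            simp [hl]
          rw [e]
          exact (content_closedBall a hR'.le).trans (ENNReal.ofReal_le_ofReal (min_le_right _ _))
        · have e : {y ∈ closedBall a (min R (μ / (A + 1))) | l < A} = ∅ := by
            ext y
            simp [hl]
          rw [e, indicator_of_notMem (show l ∉ Iio A from hl)]
          refine (H2CV.content_mono (empty_subset (closedBall a 0))).trans ?_
          exact (content_closedBall a le_rfl).trans (by simp)
      refine (setLIntegral_mono ((measurable_const.indicator measurableSet_Iio)) h1).trans ?_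
      rw [lintegral_indicator measurableSet_Iio, Measure.restrict_restrict measurableSet_Iio,
        lintegral_const, Measure.restrict_apply_univ]
      have e : Iio A ∩ Ioi (0 : ℝ) = Ioo 0 A := by
        ext l
        simp [and_comm]
      rw [e, Real.volume_Ioo, sub_zero, ← ENNReal.ofReal_mul (by positivity)]
      refine ENNReal.ofReal_le_ofReal ?_
      rw [div_mul_eq_mul_div, div_le_iff₀ (by positivity)]
      nlinarith⟩)
  refine ⟨t, ht, hlt.trans_le ?_⟩
  exact setIntegral_mono_set ((hint t ⟨hT0.trans_lt ht.1, ht.2⟩ A R hA).mono_set inter_subset_left)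
    (Filter.Eventually.of_forall fun y => le_max_right _ _)
    (inter_subset_inter_left _ (closedBall_subset_closedBall (min_le_left _ _))).eventuallyLE

end Pool.Agent.Results.MP_6bf1e5_an.CurvatureOfVortexLines
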